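import Pool.Agent.TH274.MA.Pencil
import Pool.Agent.W515.SLP.Waring

/-!
# Anisotropy in one degree gives the strong Lefschetz property up to this degree
-/

open MvPolynomial Finset Module

namespace Pool.Agent.TH274.MA

open Pool.Agent.W515.SLP

variable {K : Type*} [Field K] {n : ℕ} {φ : MvPolynomial (Fin n) K →ₗ[K] K} {D : ℕ}

/-- The quadratic form `g ↦ φ (g ^ 2 ℓ ^ (D - 2 i))` on the forms of degree `i` modulo the
annihilator of `φ` is anisotropic. -/
def Aniso (φ : MvPolynomial (Fin n) K →ₗ[K] K) (D i : ℕ) (ℓ : MvPolynomial (Fin n) K) : Prop :=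
  ∀ g : MvPolynomial (Fin n) K, g.IsHomogeneous i → φ (g ^ 2 * ℓ ^ (D - 2 * i)) = 0 → AnnP φ g

/-- The pairing `(g, h) ↦ φ (ℓ g h)` between the degrees `i` and `D - i - 1`. -/
noncomputable def TT (φ : MvPolynomial (Fin n) K →ₗ[K] K) (D i : ℕ)
    (ℓ : MvPolynomial (Fin n) K) : homogeneousSubmodule (Fin n) K i →ₗ[K]
      Module.Dual K (homogeneousSubmodule (Fin n) K (D - i - 1)) :=
  LinearMap.mk₂ K (fun g h => φ (ℓ * (g : MvPolynomial (Fin n) K) *
      (h : MvPolynomial (Fin n) K)))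
    (by intro a b c; simp [mul_add, add_mul])
    (by intro a b c; simp)
    (by intro a b c; simp [mul_add])
    (by intro a b c; simp)

lemma TT_apply (i : ℕ) (ℓ : MvPolynomial (Fin n) K) (g : homogeneousSubmodule (Fin n) K i)
    (h : homogeneousSubmodule (Fin n) K (D - i - 1)) :
    TT φ D i ℓ g h = φ (ℓ * (g : MvPolynomial (Fin n) K) * (h : MvPolynomial (Fin n) K)) := rfl

lemma sum_TT (i : ℕ) (a : Fin n → K) :
    ∑ x, a x • TT φ D i (X x) = TT φ D i (lin a) := by
  ext g h
  simp only [LinearMap.sum_apply, LinearMap.smul_apply, TT_apply, lin, smul_eq_mul]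
  rw [Finset.sum_mul, Finset.sum_mul, map_sum]
  apply Finset.sum_congr rfl
  intro x _
  rw [← smul_eq_mul, ← map_smul, smul_eq_C_mul]
  congr 1
  ring

/-- The pairing of `lin a` has the largest rank. -/
def MaxAt (φ : MvPolynomial (Fin n) K →ₗ[K] K) (D i : ℕ) (a : Fin n → K) : Prop :=
  ∀ a' : Fin n → K, finrank K (LinearMap.range (TT φ D i (lin a'))) ≤
    finrank K (LinearMap.range (TT φ D i (lin a)))

lemma exists_maxAt (φ : MvPolynomial (Fin n) K →ₗ[K] K) (D : ℕ) (U : Set (Fin n → K))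
    (hU : ∀ Q : MvPolynomial (Fin n) K, Q ≠ 0 → ∃ a ∈ U, eval a Q ≠ 0) :
    ∃ a ∈ U, ∀ i < D, MaxAt φ D i a := by
  have h1 : ∀ i, ∃ Q : MvPolynomial (Fin n) K, Q ≠ 0 ∧ ∀ a : Fin n → K, eval a Q ≠ 0 →
      MaxAt φ D i a := by
    intro i
    have : Module.Finite K (homogeneousSubmodule (Fin n) K i) :=
        Module.Finite.iff_fg.2 (homogeneousSubmodule_fg _ _ i)
    obtain ⟨Q, hQ, h⟩ := exists_poly_max (fun x : Fin n => TT φ D i (X x))
    refine ⟨Q, hQ, fun a ha a' => ?_⟩
    have := h a ha a'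
    rwa [sum_TT, sum_TT] at this
  choose Q hQ h using h1
  obtain ⟨a, haU, ha⟩ := hU (∏ i ∈ range D, Q i) (Finset.prod_ne_zero_iff.2 fun i _ => hQ i)
  rw [map_prod, Finset.prod_ne_zero_iff] at ha
  exact ⟨a, haU, fun i hi => h i a (ha i (Finset.mem_range.2 hi))⟩

lemma lin_add_smul (a : Fin n → K) (t : K) (x : Fin n) :
    lin (a + t • Pi.single x 1) = lin a + C t * X x := by
  simp only [lin, Pi.add_apply, Pi.smul_apply, smul_eq_mul, C_add, add_mul,
    Finset.sum_add_distrib]
  congr 1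
  rw [Finset.sum_eq_single x]
  · simp
  · intro y _ hy
    simp [hy]
  · intro h
    exact absurd (Finset.mem_univ _) h

/-- The main property of a linear form with pairings of largest rank. -/
lemma kernel_prop [Infinite K] (hφ : Deg φ D) {i : ℕ} (hi : i < D) {a : Fin n → K}
    (hmax : MaxAt φ D i a) {b : MvPolynomial (Fin n) K} (hb : b.IsHomogeneous i)
    (h : AnnP φ (lin a * b)) (x : Fin n) :
    ∃ c : MvPolynomial (Fin n) K, c.IsHomogeneous i ∧ AnnP φ (X x * b - lin a * c) := by
  have : Module.Finite K (homogeneousSubmodule (Fin n) K i) :=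
        Module.Finite.iff_fg.2 (homogeneousSubmodule_fg _ _ i)
  have hv : TT φ D i (lin a) ⟨b, hb⟩ = 0 := by
    ext g
    exact h g
  have hmax' : ∀ t : K, finrank K (LinearMap.range (TT φ D i (lin a) + t • TT φ D i (X x))) ≤
      finrank K (LinearMap.range (TT φ D i (lin a))) := by
    intro t
    have h1 : TT φ D i (lin a) + t • TT φ D i (X x) = TT φ D i (lin (a + t • Pi.single x 1)) := by
      ext g g'
      simp only [LinearMap.add_apply, LinearMap.smul_apply, TT_apply, lin_add_smul, smul_eq_mul]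
      rw [add_mul, add_mul, map_add]
      congr 1
      rw [← smul_eq_C_mul, smul_mul_assoc, smul_mul_assoc, map_smul, smul_eq_mul]
    rw [h1]
    exact hmax _
  obtain ⟨c, hc⟩ := mem_range_of_max _ _ hmax' hv
  refine ⟨c, c.2, ?_⟩
  apply annP_of_homog hφ (i := i + 1) (by omega)
  · have h2 : (X x * b : MvPolynomial (Fin n) K).IsHomogeneous (i + 1) := by
      rw [add_comm]
      exact (isHomogeneous_X K x).mul hb
    have h3 : (lin a * (c : MvPolynomial (Fin n) K)).IsHomogeneous (i + 1) := by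
      rw [add_comm]
      exact (lin_hom a).mul c.2
    exact h2.sub h3
  · intro v hv'
    have h4 := LinearMap.congr_fun hc ⟨v, by rw [Nat.sub_add_eq] at hv'; exact hv'⟩
    rw [TT_apply, TT_apply] at h4
    rw [sub_mul, map_sub, sub_eq_zero]
    exact h4.symm

/-- Anisotropy goes down by one degree. -/
lemma aniso_down [Infinite K] (hφ : Deg φ D) {i : ℕ} (hi : 2 * (i + 1) ≤ D) {a : Fin n → K}
    (hmax : MaxAt φ D i a) (h : Aniso φ D (i + 1) (lin a)) : Aniso φ D i (lin a) := by
  intro b hb h0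
  have hbl : (lin a * b).IsHomogeneous (i + 1) := by
    rw [add_comm]
    exact (lin_hom a).mul hb
  have h1 : AnnP φ (lin a * b) := by
    apply h _ hbl
    rw [← h0]
    congr 1
    have : D - 2 * i = (D - 2 * (i + 1)) + 2 := by omega
    rw [this]
    ring
  have h2 : ∀ x, AnnP φ (X x * b) := by
    intro x
    obtain ⟨c, hc, hc2⟩ := kernel_prop hφ (by omega) hmax hb h1 x
    apply h
    · rw [add_comm]
      exact (isHomogeneous_X K x).mul hb
    · have e1 : (X x * b) ^ 2 * lin a ^ (D - 2 * (i + 1)) =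
          (X x * b - lin a * c) * (X x * b * lin a ^ (D - 2 * (i + 1))) +
          (lin a * b) * (X x * c * lin a ^ (D - 2 * (i + 1))) := by ring
      rw [e1, map_add, hc2, h1, add_zero]
  apply annP_of_homog hφ (i := i) (by omega) hb
  intro v hv
  -- every form of positive degree is a combination of the variables
  obtain ⟨m, hm⟩ : ∃ m, D - i = m + 1 := ⟨D - i - 1, by omega⟩
  rw [hm] at hv
  rw [v.as_sum, Finset.mul_sum, map_sum]
  apply Finset.sum_eq_zero
  intro s hs
  have hdeg : s.degree = m + 1 := by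
    by_contra hne
    exact (mem_support_iff.1 hs) (hv.coeff_eq_zero hne)
  have hne : s ≠ 0 := by
    rintro rfl
    simp at hdeg
  obtain ⟨x, hx⟩ := Finsupp.ne_iff.1 hne
  have hle : Finsupp.single x 1 ≤ s := by
    rw [Finsupp.single_le_iff]
    exact Nat.one_le_iff_ne_zero.2 hx
  have hs' : s = Finsupp.single x 1 + (s - Finsupp.single x 1) := (add_tsub_cancel_of_le hle).symm
  have e : monomial s (coeff s v) = X x * monomial (s - Finsupp.single x 1) (coeff s v) := by
    rw [X, monomial_mul, one_mul, ← hs']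
  rw [e]
  have e2 : b * (X x * monomial (s - Finsupp.single x 1) (coeff s v)) =
      (X x * b) * monomial (s - Finsupp.single x 1) (coeff s v) := by ring
  rw [e2]
  exact h2 x _

/-- **Anisotropy in one degree gives anisotropy in all lower degrees.** -/
theorem aniso_all [Infinite K] (hφ : Deg φ D) {i₀ : ℕ} (hi₀ : 2 * i₀ ≤ D) {a : Fin n → K}
    (hmax : ∀ i < D, MaxAt φ D i a) (h : Aniso φ D i₀ (lin a)) :
    ∀ i ≤ i₀, Aniso φ D i (lin a) := by
  intro i hi
  induction hi using Nat.decreasingInduction with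
  | self => exact h
  | of_succ i hi ih => exact aniso_down hφ (by omega) (hmax i (by omega)) ih

lemma pcond_of_aniso {i : ℕ} {ℓ : MvPolynomial (Fin n) K} (h : Aniso φ D i ℓ) :
    PCond φ D i ℓ := by
  intro u hu h0
  apply h u hu
  rw [← h0 u hu]
  congr 1
  ring

/-- **Anisotropy in degree `i₀` for a dense set of linear forms gives a linear form `ℓ` for which
all maps `ℓ ^ (D - 2 i) : A_i → A_{D - i}`, `i ≤ i₀`, are bijective.** -/
theorem exists_pcond [Infinite K] (hφ : Deg φ D) {i₀ : ℕ} (hi₀ : 2 * i₀ ≤ D)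
    (U : Set (Fin n → K))
    (hU : ∀ Q : MvPolynomial (Fin n) K, Q ≠ 0 → ∃ a ∈ U, eval a Q ≠ 0)
    (h : ∀ a ∈ U, Aniso φ D i₀ (lin a)) :
    ∃ a ∈ U, ∀ i ≤ i₀, PCond φ D i (lin a) := by
  obtain ⟨a, haU, hmax⟩ := exists_maxAt φ D U hU
  exact ⟨a, haU, fun i hi => pcond_of_aniso (aniso_all hφ hi₀ hmax (h a haU) i hi)⟩

end Pool.Agent.TH274.MA
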