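import Pool.Agent.W515.SLP.Defs
import Pool.Agent.W515.SLP.Pts

/-!
# Strong Lefschetz property up to a degree, rank of evaluation at points: definitions
-/

open MvPolynomial Finset

namespace Pool.Agent.TH274.MA

open Pool.Agent.W515.SLP

variable {K : Type*} [Field K] {n : ℕ}

/-- The strong Lefschetz property of `A_F` in the degrees up to `i₀`, where `F` has degree `D`: for
one linear form `ℓ` the maps `ℓ ^ (D - 2 i) : (A_F)_i → (A_F)_{D - i}` are injective and surjective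
for all `i ≤ i₀` (used for `2 i₀ ≤ D`). -/
def StrongUpTo (F : MvPolynomial (Fin n) K) (D i₀ : ℕ) : Prop :=
  ∃ ℓ : MvPolynomial (Fin n) K, ℓ.IsHomogeneous 1 ∧ ∀ i ≤ i₀,
    (∀ g ∈ homogeneousSubmodule (Fin n) K i, act (ℓ ^ (D - 2 * i) * g) F = 0 → act g F = 0) ∧
    (∀ h ∈ homogeneousSubmodule (Fin n) K (D - i), ∃ g ∈ homogeneousSubmodule (Fin n) K i,
      act (h - ℓ ^ (D - 2 * i) * g) F = 0)

/-- The number of conditions imposed by the points `p j` on the forms of degree `i`: the dimension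
of the space of vectors `(g (p_1), …, g (p_e))`, `g` a form of degree `i`. -/
noncomputable def ptsRank {e : ℕ} (p : Fin e → Fin n → K) (i : ℕ) : ℕ :=
  Module.finrank K (Submodule.span K {v : Fin e → K | ∃ g ∈ homogeneousSubmodule (Fin n) K i,
    v = fun j => eval (p j) g})

/-- `StrongUpTo`, and the strong Lefschetz property if `D ≤ 2 i₀ + 1`. -/
def Conclusion (F : MvPolynomial (Fin n) K) (D i₀ : ℕ) : Prop :=
  StrongUpTo F D i₀ ∧ (D ≤ 2 * i₀ + 1 → HasSLP F)

/-- Zariski dense sets of `K ^ n`: no nonzero polynomial vanishes on them. -/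
def ZariskiDense (U : Set (Fin n → K)) : Prop :=
  ∀ Q : MvPolynomial (Fin n) K, Q ≠ 0 → ∃ a ∈ U, eval a Q ≠ 0

/-- The quadratic form `g ↦ (g ^ 2 ℓ ^ (D - 2 i)) ∘ F` on `(A_F)_i` is anisotropic, `ℓ = ∑ a_x x`. -/
def Anisotropic (F : MvPolynomial (Fin n) K) (D i : ℕ) (a : Fin n → K) : Prop :=
  ∀ g ∈ homogeneousSubmodule (Fin n) K i, act (g ^ 2 * lin a ^ (D - 2 * i)) F = 0 → act g F = 0

/-- For all products `λ ^ α` of `D - 2 i` of the linear forms `λ_j` the constant
`(g ^ 2 λ ^ α) ∘ F` is nonnegative for all forms `g` of degree `i`. -/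
def DerivativesPSD [LinearOrder K] (F : MvPolynomial (Fin n) K) (D i : ℕ) {r : ℕ}
    (lam : Fin r → Fin n → K) : Prop :=
  ∀ α : Fin r → ℕ, ∑ j, α j = D - 2 * i → ∀ g ∈ homogeneousSubmodule (Fin n) K i,
    0 ≤ coeff 0 (act (g ^ 2 * ∏ j, lin (lam j) ^ α j) F)

/-- The number of negative entries. -/
def negCount [LinearOrder K] {e : ℕ} (w : Fin e → K) : ℕ := (univ.filter (fun j => w j < 0)).card

/-- The sum `∑ w_j L_j ^ D`. -/
noncomputable def powerSum {e : ℕ} (w : Fin e → K) (L : Fin e → Fin n → K) (D : ℕ) :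
    MvPolynomial (Fin n) K := ∑ j, C (w j) * lin (L j) ^ D

end Pool.Agent.TH274.MA
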