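import Mathlib

/-!
# Linear families of linear maps: kernels at points of maximal rank
-/

open Module

namespace Pool.Agent.TH274.MA

variable {K : Type*} [Field K]

section

variable {V : Type*} [AddCommGroup V] [Module K V]

/-- A left inverse on a linearly independent finite family. -/
lemma exists_dual_family {ι : Type*} [Fintype ι] [DecidableEq ι] {x : ι → V}
    (hx : LinearIndependent K x) : ∃ π : V →ₗ[K] (ι → K), ∀ i, π (x i) = Pi.single i 1 := by
  have hinj : LinearMap.ker (Fintype.linearCombination K x) = ⊥ := by
    rw [LinearMap.ker_eq_bot]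
    exact hx.fintypeLinearCombination_injective
  obtain ⟨π, hπ⟩ := LinearMap.exists_leftInverse_of_injective _ hinj
  refine ⟨π, fun i => ?_⟩
  have h := LinearMap.congr_fun hπ (Pi.single i 1)
  rw [LinearMap.comp_apply, Fintype.linearCombination_apply_single, one_smul] at h
  exact h

/-- Vectors are linearly independent if a matrix of linear functionals on them is invertible. -/
lemma indep_of_det {ι : Type*} [Fintype ι] [DecidableEq ι] (π : V →ₗ[K] (ι → K)) (z : ι → V)
    (h : (Matrix.of fun i j => π (z i) j).det ≠ 0) : LinearIndependent K z := by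
  rw [Fintype.linearIndependent_iff]
  intro c hc
  have h1 : Matrix.vecMul c (Matrix.of fun i j => π (z i) j) = 0 := by
    funext j
    have h2 := congrFun (congrArg π hc) j
    rw [map_sum, map_zero, Finset.sum_apply] at h2
    simp only [Matrix.vecMul, dotProduct, Matrix.of_apply, Pi.zero_apply]
    rw [← Pi.zero_apply (M := fun _ => K) j, ← h2]
    apply Finset.sum_congr rfl
    intro i _
    rw [map_smul, Pi.smul_apply, smul_eq_mul]
  have h2 := Matrix.eq_zero_of_vecMul_eq_zero h h1
  exact fun i => congrFun h2 i

/-- Linear independence is an open condition along a line. -/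
lemma exists_indep [Infinite K] {ι : Type*} [Fintype ι] [DecidableEq ι] {x y : ι → V}
    (hx : LinearIndependent K x) : ∃ t : K, t ≠ 0 ∧ LinearIndependent K (fun i => x i + t • y i) := by
  obtain ⟨π, hπ⟩ := exists_dual_family hx
  set p : Polynomial K := (Matrix.of fun i j => Polynomial.C (π (x i) j) +
    Polynomial.X * Polynomial.C (π (y i) j)).det with hp
  have hev : ∀ t, p.eval t = (Matrix.of fun i j => π (x i + t • y i) j).det := by
    intro t
    rw [hp, ← Polynomial.coe_evalRingHom, RingHom.map_det]
    congr 1
    ext i j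
    simp only [RingHom.mapMatrix_apply, Matrix.map_apply, Matrix.of_apply,
      Polynomial.coe_evalRingHom, Polynomial.eval_add, Polynomial.eval_C, Polynomial.eval_mul,
      Polynomial.eval_X, map_add, map_smul, Pi.add_apply, Pi.smul_apply, smul_eq_mul]
  have hp0 : p ≠ 0 := by
    intro h
    have h1 := hev 0
    rw [h, Polynomial.eval_zero] at h1
    have h2 : (Matrix.of fun i j => π (x i + (0 : K) • y i) j) = 1 := by
      ext i j
      rw [Matrix.of_apply, zero_smul, add_zero, hπ, Matrix.one_apply, Pi.single_apply]
      simp only [eq_comm]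
    rw [h2, Matrix.det_one] at h1
    exact zero_ne_one h1
  have hX : p * Polynomial.X ≠ 0 := mul_ne_zero hp0 Polynomial.X_ne_zero
  obtain ⟨t, ht⟩ : ∃ t, (p * Polynomial.X).eval t ≠ 0 := by
    by_contra hcon
    push Not at hcon
    exact hX (Polynomial.funext fun t => by rw [hcon t, Polynomial.eval_zero])
  rw [Polynomial.eval_mul, Polynomial.eval_X] at ht
  refine ⟨t, right_ne_zero_of_mul ht, ?_⟩
  apply indep_of_det π
  rw [← hev]
  exact left_ne_zero_of_mul ht

end

variable {V W : Type*} [AddCommGroup V] [Module K V] [AddCommGroup W] [Module K W]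

/-- If the rank of `A + t B` is largest at `t = 0` then `B` maps the kernel of `A` into the image
of `A`. -/
lemma mem_range_of_max [Infinite K] [Module.Finite K V] (A B : V →ₗ[K] W)
    (hmax : ∀ t : K, finrank K (LinearMap.range (A + t • B)) ≤ finrank K (LinearMap.range A))
    {v : V} (hv : A v = 0) : B v ∈ LinearMap.range A := by
  classical
  by_contra hcon
  let b := Module.finBasis K (LinearMap.range A)
  have h1 : ∀ s, ∃ g, A g = (b s : W) := fun s => (b s).2
  choose u hu using h1
  have hb : LinearIndependent K (fun s => A (u s)) := by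
    have h2 := b.linearIndependent.map' (Submodule.subtype _) (Submodule.ker_subtype _)
    have h3 : (fun s => A (u s)) = (Submodule.subtype (LinearMap.range A)) ∘ b := by
      funext s
      exact hu s
    rw [h3]
    exact h2
  have hspan : Submodule.span K (Set.range fun s => A (u s)) ≤ LinearMap.range A := by
    rw [Submodule.span_le]
    rintro _ ⟨s, rfl⟩
    exact ⟨u s, rfl⟩
  have hind : LinearIndependent K (Fin.cons (B v) (fun s => A (u s)) : Fin (finrank K (LinearMap.range A) + 1) → W) :=
    linearIndependent_finCons.2 ⟨hb, fun h => hcon (hspan h)⟩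
  obtain ⟨t, ht, hli⟩ := exists_indep (y := (Fin.cons 0 (fun s => B (u s)) :
    Fin (finrank K (LinearMap.range A) + 1) → W)) hind
  have hmem : ∀ s : Fin (finrank K (LinearMap.range A) + 1), ((Fin.cons (B v) (fun s => A (u s)) : Fin (finrank K (LinearMap.range A) + 1) → W) s
      + t • (Fin.cons 0 (fun s => B (u s)) : Fin (finrank K (LinearMap.range A) + 1) → W) s)
        ∈ LinearMap.range (A + t • B) := by
    intro s
    refine Fin.cases ?_ (fun s => ?_) s
    · refine ⟨t⁻¹ • v, ?_⟩
      simp only [LinearMap.add_apply, LinearMap.smul_apply, map_smul, hv, smul_zero, zero_add,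
        Fin.cons_zero, add_zero]
      rw [smul_smul, inv_mul_cancel₀ ht, one_smul]
    · exact ⟨u s, by simp⟩
  have h5 : LinearIndependent K (fun s => (⟨_, hmem s⟩ :
      LinearMap.range (A + t • B))) := by
    apply LinearIndependent.of_comp (Submodule.subtype _)
    exact hli
  have h6 := h5.fintype_card_le_finrank
  rw [Fintype.card_fin] at h6
  have := hmax t
  omega

/-- For a linear family of linear maps the rank is largest outside a hypersurface. -/
lemma exists_poly_max {n : ℕ} [Module.Finite K V] (T : Fin n → (V →ₗ[K] W)) :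
    ∃ Q : MvPolynomial (Fin n) K, Q ≠ 0 ∧ ∀ a : Fin n → K, MvPolynomial.eval a Q ≠ 0 →
      ∀ a' : Fin n → K, finrank K (LinearMap.range (∑ x, a' x • T x)) ≤
        finrank K (LinearMap.range (∑ x, a x • T x)) := by
  classical
  let P : ℕ → Prop := fun r => ∃ a : Fin n → K, finrank K (LinearMap.range (∑ x, a x • T x)) = r
  have hbd : ∀ a : Fin n → K, finrank K (LinearMap.range (∑ x, a x • T x)) ≤ finrank K V :=
    fun a => LinearMap.finrank_range_le _
  obtain ⟨r, ⟨a0, ha0⟩, hmax⟩ : ∃ r, P r ∧ ∀ a' : Fin n → K,
      finrank K (LinearMap.range (∑ x, a' x • T x)) ≤ r := by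
    have h2 := Nat.findGreatest_spec (P := P) (hbd 0) ⟨0, rfl⟩
    exact ⟨_, h2, fun a' => Nat.le_findGreatest (hbd a') ⟨a', rfl⟩⟩
  let b := Module.finBasis K (LinearMap.range (∑ x, a0 x • T x))
  have h1 : ∀ s, ∃ g, (∑ x, a0 x • T x) g = (b s : W) := fun s => (b s).2
  choose u hu using h1
  have hb : LinearIndependent K (fun s => (∑ x, a0 x • T x) (u s)) := by
    have h2 := b.linearIndependent.map' (Submodule.subtype _) (Submodule.ker_subtype _)
    have h3 : (fun s => (∑ x, a0 x • T x) (u s)) = (Submodule.subtype
        (LinearMap.range (∑ x, a0 x • T x))) ∘ b := by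
      funext s
      exact hu s
    rw [h3]
    exact h2
  obtain ⟨π, hπ⟩ := exists_dual_family hb
  set Q : MvPolynomial (Fin n) K := (Matrix.of fun i j =>
    ∑ x, MvPolynomial.X x * MvPolynomial.C (π (T x (u i)) j)).det with hQ
  have hev : ∀ a : Fin n → K, MvPolynomial.eval a Q =
      (Matrix.of fun i j => π ((∑ x, a x • T x) (u i)) j).det := by
    intro a
    rw [hQ, RingHom.map_det]
    congr 1
    ext i j
    simp [Matrix.map_apply, LinearMap.sum_apply, map_sum, Finset.sum_apply]
  refine ⟨Q, ?_, ?_⟩
  · intro h
    have h2 := hev a0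
    rw [h, map_zero] at h2
    have h3 : (Matrix.of fun i j => π ((∑ x, a0 x • T x) (u i)) j) = 1 := by
      ext i j
      rw [Matrix.of_apply, hπ, Matrix.one_apply, Pi.single_apply]
      simp only [eq_comm]
    rw [h3, Matrix.det_one] at h2
    exact zero_ne_one h2
  · intro a ha a'
    refine (hmax a').trans ?_
    rw [hev] at ha
    have h4 := indep_of_det π _ ha
    have h5 : LinearIndependent K (fun s => (⟨(∑ x, a x • T x) (u s), ⟨_, rfl⟩⟩ :
        LinearMap.range (∑ x, a x • T x))) := by
      apply LinearIndependent.of_comp (Submodule.subtype _)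
      exact h4
    have h6 := h5.fintype_card_le_finrank
    rw [Fintype.card_fin, ha0] at h6
    exact h6

end Pool.Agent.TH274.MA
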