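import Pool.Agent.TH274.MA.Core

/-!
# Positive semidefinite derivatives
-/

open MvPolynomial Finset Module

namespace Pool.Agent.TH274.MA

open Pool.Agent.W515.SLP

section

variable {K : Type*} [Field K] {n : ℕ}

/-- A linear functional vanishing on all `X x * u` with `u` of degree `m` vanishes on the forms of
degree `m + 1`. -/
lemma eq_zero_of_vars (ψ : MvPolynomial (Fin n) K →ₗ[K] K) {m : ℕ}
    (h : ∀ (x : Fin n) (u : MvPolynomial (Fin n) K), u.IsHomogeneous m → ψ (X x * u) = 0)
    (v : MvPolynomial (Fin n) K) (hv : v.IsHomogeneous (m + 1)) : ψ v = 0 := by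
  rw [v.as_sum, map_sum]
  apply Finset.sum_eq_zero
  intro s hs
  have hdeg : s.degree = m + 1 := by
    by_contra hne
    exact (mem_support_iff.1 hs) (hv.coeff_eq_zero hne)
  have hne : s ≠ 0 := by
    rintro rfl
    simp at hdeg
  obtain ⟨x, hx⟩ := Finsupp.ne_iff.1 hne
  have hle : Finsupp.single x 1 ≤ s := by
    rw [Finsupp.single_le_iff]
    exact Nat.one_le_iff_ne_zero.2 hx
  have hs' : s = Finsupp.single x 1 + (s - Finsupp.single x 1) := (add_tsub_cancel_of_le hle).symm
  have e : monomial s (coeff s v) = X x * monomial (s - Finsupp.single x 1) (coeff s v) := by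
    rw [X, monomial_mul, one_mul, ← hs']
  rw [e]
  apply h
  apply isHomogeneous_monomial
  have := congrArg Finsupp.degree hs'
  rw [map_add, Finsupp.degree_single, hdeg] at this
  omega

/-- `φ (g · v) = 0` for all `v` if `φ (g · h · λ ^ α) = 0` for all `h` and all monomials in a
spanning family of linear forms. -/
lemma annP_of_span {φ : MvPolynomial (Fin n) K →ₗ[K] K} {D i r : ℕ} (hφ : Deg φ D)
    (hi : 2 * i ≤ D) (lam : Fin r → Fin n → K) (hspan : Submodule.span K (Set.range lam) = ⊤)
    {g : MvPolynomial (Fin n) K} (hg : g.IsHomogeneous i)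
    (h : ∀ α : Fin r → ℕ, ∑ j, α j = D - 2 * i → ∀ u : MvPolynomial (Fin n) K,
      u.IsHomogeneous i → φ (g * u * ∏ j, lin (lam j) ^ α j) = 0) : AnnP φ g := by
  classical
  have hX : ∀ x : Fin n, ∃ c : Fin r → K, (X x : MvPolynomial (Fin n) K) =
      ∑ j, C (c j) * lin (lam j) := by
    intro x
    have hx : (Pi.single x 1 : Fin n → K) ∈ Submodule.span K (Set.range lam) := by
      rw [hspan]; trivial
    obtain ⟨c, hc⟩ := (Submodule.mem_span_range_iff_exists_fun K).1 hx
    refine ⟨c, ?_⟩
    have e1 : (X x : MvPolynomial (Fin n) K) = lin (Pi.single x 1) := by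
      rw [lin, Finset.sum_eq_single x]
      · simp
      · intro y _ hy
        simp [hy]
      · intro h; exact absurd (Finset.mem_univ _) h
    rw [e1, ← hc]
    simp only [lin, Finset.sum_apply, Pi.smul_apply, smul_eq_mul, map_sum, map_mul,
      Finset.sum_mul, Finset.mul_sum]
    rw [Finset.sum_comm]
    apply Finset.sum_congr rfl
    intro j _
    apply Finset.sum_congr rfl
    intro y _
    ring
  have key : ∀ k ≤ D - 2 * i, ∀ α : Fin r → ℕ, ∑ j, α j = D - 2 * i - k →
      ∀ v : MvPolynomial (Fin n) K, v.IsHomogeneous (i + k) →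
        φ (g * v * ∏ j, lin (lam j) ^ α j) = 0 := by
    intro k
    induction k with
    | zero =>
      intro _ α hα v hv
      exact h α (by simpa using hα) v (by simpa using hv)
    | succ k ih =>
      intro hk α hα v hv
      let ψ : MvPolynomial (Fin n) K →ₗ[K] K :=
        { toFun := fun v => φ (g * v * ∏ j, lin (lam j) ^ α j)
          map_add' := by intro a b; rw [mul_add, add_mul, map_add]
          map_smul' := by intro c a; simp }
      refine eq_zero_of_vars ψ (m := i + k) ?_ v hv
      intro x u hu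
      change φ (g * (X x * u) * ∏ j, lin (lam j) ^ α j) = 0
      obtain ⟨c, hc⟩ := hX x
      rw [hc, Finset.sum_mul, Finset.mul_sum, Finset.sum_mul, map_sum]
      apply Finset.sum_eq_zero
      intro j _
      have e2 : g * (C (c j) * lin (lam j) * u) * ∏ j, lin (lam j) ^ α j =
          c j • (g * u * ∏ l, lin (lam l) ^ (α + Pi.single j 1 : Fin r → ℕ) l) := by
        have e3 : ∏ l, lin (lam l) ^ (α + Pi.single j 1 : Fin r → ℕ) l =
            (∏ l, lin (lam l) ^ α l) * lin (lam j) := by
          simp only [Pi.add_apply, pow_add, Finset.prod_mul_distrib]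
          congr 1
          rw [Finset.prod_eq_single j]
          · simp
          · intro l _ hl
            simp [hl]
          · intro h; exact absurd (Finset.mem_univ _) h
        rw [e3, smul_eq_C_mul]
        ring
      rw [e2, map_smul, ih (by omega) _ _ u hu, smul_zero]
      simp only [Pi.add_apply, Finset.sum_add_distrib, Finset.sum_pi_single', Finset.mem_univ,
        if_true]
      rw [hα]
      omega
  apply annP_of_homog hφ (by omega : i ≤ D) hg
  intro v hv
  have := key (D - 2 * i) le_rfl 0 (by simp) v (by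
    have : i + (D - 2 * i) = D - i := by omega
    rwa [this])
  simpa using this

/-- The combinations of a spanning family with coefficients in an infinite set are dense. -/
lemma dense_comb {r : ℕ} (lam : Fin r → Fin n → K)
    (hspan : Submodule.span K (Set.range lam) = ⊤) (S : Set K) (hS : S.Infinite)
    (Q : MvPolynomial (Fin n) K) (hQ : Q ≠ 0) :
    ∃ t : Fin r → K, (∀ j, t j ∈ S) ∧ eval (∑ j, t j • lam j) Q ≠ 0 := by
  have : Infinite K := Set.infinite_univ_iff.1 (hS.mono (Set.subset_univ _))
  set Q' : MvPolynomial (Fin r) K := aeval (fun x => ∑ j, X j * C (lam j x)) Q with hQ'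
  have hev : ∀ t : Fin r → K, eval t Q' = eval (∑ j, t j • lam j) Q := by
    intro t
    rw [hQ', ← aeval_eq_eval, ← aeval_eq_eval, ← AlgHom.comp_apply, comp_aeval]
    congr 1
    ext x
    simp [Finset.sum_apply]
  have hQ0 : Q' ≠ 0 := by
    intro h
    apply hQ
    apply MvPolynomial.funext
    intro a
    have ha : a ∈ Submodule.span K (Set.range lam) := by rw [hspan]; trivial
    obtain ⟨c, hc⟩ := (Submodule.mem_span_range_iff_exists_fun K).1 ha
    rw [map_zero, ← hc, ← hev, h, map_zero]
  by_contra hcon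
  push Not at hcon
  apply hQ0
  apply MvPolynomial.funext_set (fun _ => S) (fun _ => hS)
  intro t ht
  rw [map_zero, hev]
  exact hcon t (fun j => ht j (Set.mem_univ _))

end

section Ordered

variable {K : Type*} [Field K] [LinearOrder K] [IsStrictOrderedRing K] {n : ℕ}
  {φ : MvPolynomial (Fin n) K →ₗ[K] K} {D : ℕ}

/-- An isotropic vector of a positive semidefinite form is in its radical. -/
lemma radical_of_psd {i : ℕ} (N : MvPolynomial (Fin n) K)
    (h : ∀ g : MvPolynomial (Fin n) K, g.IsHomogeneous i → 0 ≤ φ (g ^ 2 * N))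
    {g : MvPolynomial (Fin n) K} (hg : g.IsHomogeneous i) (h0 : φ (g ^ 2 * N) = 0)
    {u : MvPolynomial (Fin n) K} (hu : u.IsHomogeneous i) : φ (g * u * N) = 0 := by
  have h1 : ∀ s : K, 0 ≤ φ (u ^ 2 * N) + s * (2 * φ (g * u * N)) := by
    intro s
    have h2 := h (u + C s * g) (hu.add (hg.C_mul s))
    have e : (u + C s * g) ^ 2 * N = u ^ 2 * N + (2 * s) • (g * u * N) +
        (s ^ 2) • (g ^ 2 * N) := by
      rw [smul_eq_C_mul, smul_eq_C_mul, C_mul, C_pow]
      rw [map_ofNat C 2]
      ring
    rw [e, map_add, map_add, map_smul, map_smul, h0, smul_zero, add_zero, smul_eq_mul] at h2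
    linarith
  by_contra hne
  set β := 2 * φ (g * u * N) with hβ
  have hβ0 : β ≠ 0 := mul_ne_zero two_ne_zero hne
  have h3 := h1 (-(φ (u ^ 2 * N) + 1) / β)
  rw [div_mul_cancel₀ _ hβ0] at h3
  linarith

/-- **Positive semidefinite derivatives give anisotropy.** -/
theorem aniso_of_psd {i r : ℕ} (hφ : Deg φ D) (hi : 2 * i ≤ D) (lam : Fin r → Fin n → K)
    (hspan : Submodule.span K (Set.range lam) = ⊤)
    (h : ∀ α : Fin r → ℕ, ∑ j, α j = D - 2 * i → ∀ g : MvPolynomial (Fin n) K,
      g.IsHomogeneous i → 0 ≤ φ (g ^ 2 * ∏ j, lin (lam j) ^ α j))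
    {t : Fin r → K} (ht : ∀ j, 0 < t j) : Aniso φ D i (lin (∑ j, t j • lam j)) := by
  classical
  intro g hg h0
  have e1 : lin (∑ j, t j • lam j) = ∑ j, C (t j) * lin (lam j) := by
    simp only [lin, Finset.sum_apply, Pi.smul_apply, smul_eq_mul, map_sum, map_mul,
      Finset.sum_mul, Finset.mul_sum]
    rw [Finset.sum_comm]
    apply Finset.sum_congr rfl
    intro j _
    apply Finset.sum_congr rfl
    intro y _
    ring
  rw [e1, Finset.sum_pow_eq_sum_piAntidiag, Finset.mul_sum, map_sum] at h0
  have e2 : ∀ α ∈ Finset.piAntidiag (univ : Finset (Fin r)) (D - 2 * i),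
      φ (g ^ 2 * ((Nat.multinomial univ α : MvPolynomial (Fin n) K) *
        ∏ j, (C (t j) * lin (lam j)) ^ α j)) =
      ((Nat.multinomial univ α : K) * ∏ j, t j ^ α j) * φ (g ^ 2 * ∏ j, lin (lam j) ^ α j) := by
    intro α _
    have e3 : g ^ 2 * ((Nat.multinomial univ α : MvPolynomial (Fin n) K) *
        ∏ j, (C (t j) * lin (lam j)) ^ α j) = ((Nat.multinomial univ α : K) * ∏ j, t j ^ α j) •
          (g ^ 2 * ∏ j, lin (lam j) ^ α j) := by
      rw [smul_eq_C_mul]
      simp only [mul_pow, Finset.prod_mul_distrib, map_mul, map_prod, map_pow, map_natCast]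
      ring
    rw [e3, map_smul, smul_eq_mul]
  rw [Finset.sum_congr rfl e2] at h0
  have hpos : ∀ α : Fin r → ℕ, 0 < (Nat.multinomial univ α : K) * ∏ j, t j ^ α j := by
    intro α
    apply mul_pos
    · exact_mod_cast Nat.multinomial_pos univ α
    · exact Finset.prod_pos fun j _ => pow_pos (ht j) _
  have h1 := (Finset.sum_eq_zero_iff_of_nonneg (fun α hα => mul_nonneg (hpos α).le
    (h α (by simpa using (Finset.mem_piAntidiag.1 hα).1) g hg))).1 h0
  apply annP_of_span hφ hi lam hspan hg
  intro α hα u hu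
  have h2 := h1 α (Finset.mem_piAntidiag.2 ⟨hα, fun j _ => Finset.mem_univ j⟩)
  have h3 : φ (g ^ 2 * ∏ j, lin (lam j) ^ α j) = 0 :=
    (mul_eq_zero.1 h2).resolve_left (hpos α).ne'
  exact radical_of_psd _ (h α hα) hg h3 hu

end Ordered

end Pool.Agent.TH274.MA
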