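import Pool.Agent.TH274.MA.Psd
import Pool.Agent.TH274.MA.Defs

/-!
# Sums of powers of linear forms with few negative coefficients
-/

open MvPolynomial Finset Module

namespace Pool.Agent.TH274.MA

open Pool.Agent.W515.SLP

section

variable {K : Type*} [Field K] {n : ℕ}

/-- The evaluation map on forms of degree `i`. -/
noncomputable def evL {e : ℕ} (p : Fin e → Fin n → K) (i : ℕ) :
    homogeneousSubmodule (Fin n) K i →ₗ[K] (Fin e → K) :=
  { toFun := fun g j => eval (p j) (g : MvPolynomial (Fin n) K)
    map_add' := by intro a b; funext j; simp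
    map_smul' := by intro a b; funext j; simp }

lemma ptsRank_eq {e : ℕ} (p : Fin e → Fin n → K) (i : ℕ) :
    ptsRank p i = finrank K (LinearMap.range (evL p i)) := by
  have h1 : Submodule.span K {v : Fin e → K | ∃ g ∈ homogeneousSubmodule (Fin n) K i,
      v = fun j => eval (p j) g} = LinearMap.range (evL p i) := by
    apply le_antisymm
    · rw [Submodule.span_le]
      rintro _ ⟨g, hg, rfl⟩
      exact ⟨⟨g, hg⟩, rfl⟩
    · rintro _ ⟨g, rfl⟩
      exact Submodule.subset_span ⟨g, g.2, rfl⟩
  rw [ptsRank, h1]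

lemma derivDim_eq [CharZero K] (F : MvPolynomial (Fin n) K) (i : ℕ) :
    derivDim F i = finrank K (LinearMap.range (actL F i)) := by
  have h1 : Submodule.span K {G | ∃ g ∈ homogeneousSubmodule (Fin n) K i, G = act g F}
      = LinearMap.range (actL F i) := by
    apply le_antisymm
    · rw [Submodule.span_le]
      rintro _ ⟨g, hg, rfl⟩
      exact ⟨⟨g, hg⟩, rfl⟩
    · rintro _ ⟨g, rfl⟩
      exact Submodule.subset_span ⟨g, g.2, rfl⟩
  rw [derivDim, h1]

end

variable {K : Type*} [Field K] [LinearOrder K] [IsStrictOrderedRing K] {n : ℕ} {D : ℕ}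

omit [LinearOrder K] [IsStrictOrderedRing K] in
lemma pair_eq [CharZero K] {F : MvPolynomial (Fin n) K} {e : ℕ} (w : Fin e → K) (p : Fin e → Fin n → K)
    (h : F = ∑ j, C (w j) * lin (p j) ^ D) {g : MvPolynomial (Fin n) K} (hg : g.IsHomogeneous D) :
    phi F g = D.factorial * ∑ j, w j * eval (p j) g := by
  have h1 := rep_of_waring (K := K) (k := K) w p (F := F) (D := D)
    (by rw [Algebra.algebraMap_self, map_id]; exact h) g hg
  rw [Algebra.algebraMap_self, RingHom.id_apply] at h1
  rw [h1, Finset.mul_sum]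
  apply Finset.sum_congr rfl
  intro j _
  rw [aeval_eq_eval, mul_assoc]

/-- Isotropic vectors of a diagonal form restricted to a subspace, when the radical is large. -/
lemma mem_of_isotropic {V : Type*} [AddCommGroup V] [Module K V] [Module.Finite K V] {e : ℕ}
    (ev : V →ₗ[K] (Fin e → K)) (A : Submodule K V) (ω : Fin e → K) (hω : ∀ j, ω j ≠ 0)
    (hker : LinearMap.ker ev ≤ A) (hA : ∀ x ∈ A, ∀ y, ∑ j, ω j * (ev x j * ev y j) = 0)
    (hcard : (univ.filter (fun j => ω j < 0)).card ≤ finrank K (A.map ev)) (g : V)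
    (hg : ∑ j, ω j * (ev g j * ev g j) = 0) : g ∈ A := by
  classical
  by_cases hvN : ev g ∈ A.map ev
  · obtain ⟨g', hg', hgv⟩ := hvN
    have h1 : g - g' ∈ A := by
      apply hker
      rw [LinearMap.mem_ker, map_sub, hgv, sub_self]
    have h2 := A.add_mem h1 hg'
    rwa [sub_add_cancel] at h2
  · exfalso
    have hlt : A.map ev < A.map ev ⊔ Submodule.span K {ev g} := by
      apply lt_of_le_of_ne le_sup_left
      intro heq
      apply hvN
      rw [heq]
      exact Submodule.mem_sup_right (Submodule.mem_span_singleton_self _)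
    have hlt2 := Submodule.finrank_lt_finrank_of_lt hlt
    set S := univ.filter (fun j => ω j < 0) with hS
    let ρ : (A.map ev ⊔ Submodule.span K {ev g} : Submodule K (Fin e → K)) →ₗ[K] (S → K) :=
      { toFun := fun x j => (x : Fin e → K) j
        map_add' := by intro a b; funext j; simp
        map_smul' := by intro a b; funext j; simp }
    have hk : LinearMap.ker ρ ≠ ⊥ := by
      apply LinearMap.ker_ne_bot_of_finrank_lt
      rw [Module.finrank_fintype_fun_eq_card, Fintype.card_coe]
      omega
    obtain ⟨x, hx, hx0⟩ := (Submodule.ne_bot_iff _).1 hk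
    apply hx0
    obtain ⟨y, hy, z, hz, hyz⟩ := Submodule.mem_sup.1 x.2
    obtain ⟨c, rfl⟩ := Submodule.mem_span_singleton.1 hz
    obtain ⟨g', hg', rfl⟩ := hy
    have hxj : ∀ j, (x : Fin e → K) j = ev g' j + c * ev g j := by
      intro j
      rw [← hyz, Pi.add_apply, Pi.smul_apply, smul_eq_mul]
    have hq : ∑ j, ω j * ((x : Fin e → K) j) ^ 2 = 0 := by
      have e1 : ∀ j, ω j * ((x : Fin e → K) j) ^ 2 =
          ω j * (ev g' j * ev g' j) + 2 * c * (ω j * (ev g' j * ev g j)) +
          c ^ 2 * (ω j * (ev g j * ev g j)) := by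
        intro j
        rw [hxj]
        ring
      rw [Finset.sum_congr rfl (fun j _ => e1 j), Finset.sum_add_distrib,
        Finset.sum_add_distrib, ← Finset.mul_sum, ← Finset.mul_sum, hA _ hg' g', hA _ hg' g, hg]
      ring
    have hneg : ∀ j ∈ S, (x : Fin e → K) j = 0 := by
      intro j hj
      exact congrFun (LinearMap.mem_ker.1 hx) ⟨j, hj⟩
    have hnn : ∀ j ∈ (univ : Finset (Fin e)), 0 ≤ ω j * ((x : Fin e → K) j) ^ 2 := by
      intro j _
      by_cases hj : j ∈ S
      · rw [hneg j hj]; simp
      · have : 0 ≤ ω j := by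
          by_contra hcon
          exact hj (Finset.mem_filter.2 ⟨Finset.mem_univ _, not_le.1 hcon⟩)
        exact mul_nonneg this (sq_nonneg _)
    have hall := (Finset.sum_eq_zero_iff_of_nonneg hnn).1 hq
    apply Subtype.ext
    funext j
    have h1 := hall j (Finset.mem_univ j)
    have h2 := (mul_eq_zero.1 h1).resolve_left (hω j)
    exact pow_eq_zero_iff (two_ne_zero) |>.1 h2

omit [LinearOrder K] [IsStrictOrderedRing K] in
/-- A dimension formula. -/
lemma finrank_map_ker {V W W' : Type*} [AddCommGroup V] [Module K V] [Module.Finite K V]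
    [AddCommGroup W] [Module K W] [AddCommGroup W'] [Module K W'] (f : V →ₗ[K] W')
    (g : V →ₗ[K] W) (h : LinearMap.ker g ≤ LinearMap.ker f) :
    finrank K ((LinearMap.ker f).map g) + finrank K (LinearMap.range f) =
      finrank K (LinearMap.range g) := by
  have e1 := LinearMap.finrank_range_add_finrank_ker f
  have e2 := LinearMap.finrank_range_add_finrank_ker g
  have e3 := LinearMap.finrank_range_add_finrank_ker (g.comp (LinearMap.ker f).subtype)
  rw [LinearMap.range_comp, Submodule.range_subtype, LinearMap.ker_comp] at e3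
  have e4 : finrank K ((LinearMap.ker g).comap (LinearMap.ker f).subtype) =
      finrank K (LinearMap.ker g) :=
    LinearEquiv.finrank_eq (Submodule.comapSubtypeEquivOfLe h)
  rw [e4] at e3
  omega

/-- **Few negative coefficients give anisotropy.** -/
theorem aniso_of_signs {F : MvPolynomial (Fin n) K} (hF : F.IsHomogeneous D) {e : ℕ}
    (w : Fin e → K) (p : Fin e → Fin n → K) (h : F = ∑ j, C (w j) * lin (p j) ^ D) {i : ℕ}
    (hi : 2 * i ≤ D) (a : Fin n → K)
    (hne : ∀ j, w j * (eval a (lin (p j))) ^ (D - 2 * i) ≠ 0)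
    (hcard : (univ.filter (fun j => w j * (eval a (lin (p j))) ^ (D - 2 * i) < 0)).card +
      derivDim F i ≤ ptsRank p i) : Aniso (phi F) D i (lin a) := by
  classical
  have hfin : Module.Finite K (homogeneousSubmodule (Fin n) K i) :=
    Module.Finite.iff_fg.2 (homogeneousSubmodule_fg _ _ i)
  have hfac : (D.factorial : K) ≠ 0 := Nat.cast_ne_zero.2 (Nat.factorial_ne_zero D)
  -- the form on two forms of degree `i`
  have hform : ∀ g u : MvPolynomial (Fin n) K, g.IsHomogeneous i → u.IsHomogeneous i →
      phi F (g * u * lin a ^ (D - 2 * i)) = D.factorial *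
        ∑ j, (w j * (eval a (lin (p j))) ^ (D - 2 * i)) * (eval (p j) g * eval (p j) u) := by
    intro g u hg hu
    have h2 : (g * u * lin a ^ (D - 2 * i)).IsHomogeneous D := by
      have := (hg.mul hu).mul ((lin_hom a).pow (D - 2 * i))
      have h3 : i + i + 1 * (D - 2 * i) = D := by omega
      rwa [h3] at this
    rw [pair_eq w p h h2]
    congr 1
    apply Finset.sum_congr rfl
    intro j _
    have h4 : eval (p j) (lin a) = eval a (lin (p j)) := by
      rw [eval_lin, eval_lin]
      exact Finset.sum_congr rfl fun x _ => mul_comm _ _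
    rw [map_mul, map_mul, map_pow, h4]
    ring
  have hAmem : ∀ g : homogeneousSubmodule (Fin n) K i,
      g ∈ LinearMap.ker (actL F i) ↔ AnnP (phi F) g := by
    intro g
    rw [LinearMap.mem_ker]
    exact act_eq_zero_iff F g
  have hkA : LinearMap.ker (evL p i) ≤ LinearMap.ker (actL F i) := by
    intro g hg
    rw [LinearMap.mem_ker] at hg
    rw [hAmem]
    apply annP_of_homog (deg_phi hF) (by omega : i ≤ D) g.2
    intro v hv
    have h2 : ((g : MvPolynomial (Fin n) K) * v).IsHomogeneous D := by
      have := g.2.mul hv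
      have h3 : i + (D - i) = D := by omega
      rwa [h3] at this
    rw [pair_eq w p h h2, Finset.sum_eq_zero, mul_zero]
    intro j _
    have h5 : eval (p j) (g : MvPolynomial (Fin n) K) = 0 := congrFun hg j
    rw [map_mul, h5]
    ring
  have hdim := finrank_map_ker (actL F i) (evL p i) hkA
  rw [← derivDim_eq, ← ptsRank_eq] at hdim
  have hc : (univ.filter (fun j => w j * (eval a (lin (p j))) ^ (D - 2 * i) < 0)).card ≤
      finrank K ((LinearMap.ker (actL F i)).map (evL p i)) := by
    rw [← hdim] at hcard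
    exact Nat.le_of_add_le_add_right hcard
  intro g hg h0
  have h0' : ∑ j, (w j * (eval a (lin (p j))) ^ (D - 2 * i)) *
      (eval (p j) g * eval (p j) g) = 0 := by
    have e1 := hform g g hg hg
    have e2 : g * g * lin a ^ (D - 2 * i) = g ^ 2 * lin a ^ (D - 2 * i) := by ring
    rw [e2, h0] at e1
    exact (mul_eq_zero.1 e1.symm).resolve_left hfac
  have hA : ∀ x ∈ LinearMap.ker (actL F i), ∀ y,
      ∑ j, (w j * (eval a (lin (p j))) ^ (D - 2 * i)) * (evL p i x j * evL p i y j) = 0 := by
    intro x hx y
    have e1 := hform x y x.2 y.2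
    have e2 := (hAmem x).1 hx
    rw [mul_assoc, e2] at e1
    exact (mul_eq_zero.1 e1.symm).resolve_left hfac
  have key := mem_of_isotropic (evL p i) (LinearMap.ker (actL F i)) _ hne hkA hA hc ⟨g, hg⟩ h0'
  exact (hAmem ⟨g, hg⟩).1 key

/-- The linear forms with given signs at finitely many points are dense. -/
lemma dense_signs {e : ℕ} (p : Fin e → Fin n → K) (a : Fin n → K)
    (ha : ∀ j, eval a (lin (p j)) ≠ 0) (Q : MvPolynomial (Fin n) K) (hQ : Q ≠ 0) :
    ∃ a' : Fin n → K, (∀ j, 0 < eval a' (lin (p j)) * eval a (lin (p j))) ∧ eval a' Q ≠ 0 := by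
  classical
  obtain ⟨b, hb⟩ : ∃ b : Fin n → K, eval b Q ≠ 0 := by
    by_contra hcon
    push Not at hcon
    exact hQ (MvPolynomial.funext fun b => by rw [hcon b, map_zero])
  -- restrict to the line from `a` to `b`
  let q : Polynomial K := aeval (fun x => Polynomial.C (a x) + Polynomial.X * Polynomial.C (b x - a x)) Q
  have hq : ∀ s : K, q.eval s = eval (fun x => a x + s * (b x - a x)) Q := by
    intro s
    change (Polynomial.evalRingHom s) (aeval _ Q) = _
    rw [← Polynomial.coe_aeval_eq_evalRingHom, RingHom.coe_coe, ← AlgHom.comp_apply, comp_aeval,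
      ← aeval_eq_eval]
    congr 2
    funext x
    simp
  have hq0 : q ≠ 0 := by
    intro h0
    have h1 := hq 1
    rw [h0, Polynomial.eval_zero] at h1
    apply hb
    rw [h1]
    congr 2
    funext x
    ring
  set c : Fin e → K := fun j => eval b (lin (p j)) - eval a (lin (p j)) with hc
  obtain ⟨ε, hε, hεj⟩ := Pi.exists_forall_pos_add_lt (ι := Fin e) (x := fun _ => (0 : K))
    (y := fun j => |eval a (lin (p j))| / (1 + |c j|)) (fun j => by
      have h1 : 0 < |eval a (lin (p j))| := abs_pos.2 (ha j)
      have h2 : 0 < 1 + |c j| := by positivity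
      exact div_pos h1 h2)
  have hinf : (Set.Ioo (0 : K) ε).Infinite := Set.Ioo_infinite hε
  obtain ⟨s, hs, hs2⟩ := hinf.exists_notMem_finset q.roots.toFinset
  have hqs : q.eval s ≠ 0 := by
    intro h0
    apply hs2
    rw [Multiset.mem_toFinset, Polynomial.mem_roots hq0]
    exact h0
  refine ⟨fun x => a x + s * (b x - a x), ?_, ?_⟩
  · intro j
    have e1 : eval (fun x => a x + s * (b x - a x)) (lin (p j)) =
        eval a (lin (p j)) + s * c j := by
      rw [hc]
      simp only [eval_lin]
      rw [← Finset.sum_sub_distrib, Finset.mul_sum, ← Finset.sum_add_distrib]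
      apply Finset.sum_congr rfl
      intro x _
      ring
    rw [e1]
    have h1 := hεj j
    simp only [zero_add] at h1
    have h2 : 0 < 1 + |c j| := by positivity
    rw [lt_div_iff₀ h2] at h1
    have h3 : |s * c j| < |eval a (lin (p j))| := by
      rw [abs_mul, abs_of_pos hs.1]
      calc s * |c j| ≤ s * (1 + |c j|) := by
            apply mul_le_mul_of_nonneg_left _ hs.1.le
            linarith
        _ < ε * (1 + |c j|) := by
            apply mul_lt_mul_of_pos_right hs.2 h2
        _ < _ := h1
    rcases lt_or_gt_of_ne (ha j) with h4 | h4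
    · rw [abs_of_neg h4] at h3
      have h5 := (abs_lt.1 h3).2
      nlinarith
    · rw [abs_of_pos h4] at h3
      have h5 := (abs_lt.1 h3).1
      nlinarith
  · rw [← hq]
    exact hqs

end Pool.Agent.TH274.MA
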